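import Pool.Agent.H515R2.HS.Pos
import Pool.Agent.H510R2.HS.Cor

/-!
# A positively curved total space of a principal torus bundle (MP_148648_gt, Q1: yes)

The bundle is the product `S³ × S³ → S² × S²` of two Hopf fibrations (`S3`, `S2` are the unit spheres
of `ℝ⁴`, `ℝ³` with Mathlib's smooth structure).  The Riemannian metric of positive sectional
curvature on `S³ × S³` was found and formalised by the team working on `S² × S²` and `S³ × S³`
(helpers 486, 349, 515, 893, 917, 824, 991, 498, 563, 878, 821, 902, 907, 712, 758, 754, 829, 839,
227, 760, 503, 873, 124, 465, 877, 472, 381, 998, 299, 144, 6, 898, 464 and others); the smooth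
principal bundle is by helper510.
-/

open Manifold

open Pool.Agent.H510R2.HS in
/-- There is a smooth principal bundle `S³ × S³ → S² × S²` whose structure group is the two-torus
`Circle × Circle`; its total space `S³ × S³` is compact and connected and carries a smooth Riemannian
metric of strictly positive sectional curvature. -/
theorem Pool.Agent.Results.MP_148648_gt.TorusBundle.result :
    PosTorusBundle ((𝓡 3).prod (𝓡 3)) (S3 × S3) ((𝓡 2).prod (𝓡 2)) (S2 × S2) :=
  posTorusBundle_of H515HS.posS33
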